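import Mathlib

namespace Pool.Agent.Results.MP_305ad1_co.OddCyclePairs

open Finset Complex

/-! ### The linear system of a pair of cycles -/

/-- the linear system of the cyclic grid -/
def Sys {N M : ℕ} {K : Type*} [Field K] (x y : ZMod N → ZMod M → K) : Prop :=
  ∀ i k, x i k * y (i + 1) (k + 1) + y i k * x (i + 1) (k + 1) - x i (k + 1) * y (i + 1) k -
    y i (k + 1) * x (i + 1) k = 0

/-- some complex point is nonsingular -/
def Good (N M : ℕ) : Prop := ∃ x : ZMod N → ZMod M → ℂ, ∀ y, Sys x y → ∀ i k, y i k = 0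

theorem Good.symm {N M : ℕ} (h : Good N M) : Good M N := by
  obtain ⟨x, hx⟩ := h
  refine ⟨fun k i => x i k, fun y hy i k => ?_⟩
  refine hx (fun i k => y k i) (fun i k => ?_) k i
  have := hy k i
  linear_combination this

theorem intCast_ne {M : ℕ} {j : ℤ} (h : j ≠ 0) (h2 : |j| < M) : (j : ZMod M) ≠ 0 := by
  rw [Ne, ZMod.intCast_zmod_eq_zero_iff_dvd]
  intro hd
  exact h (Int.eq_zero_of_abs_lt_dvd hd h2)

theorem exists_AB {M p : ℕ} (h : 2 * p + 3 ≤ M) :
    ∃ A B : ZMod M, (p : ZMod M) * A + B = 1 ∧ A ≠ 0 ∧ A ≠ 2 ∧ B ≠ 0 ∧ B ≠ 2 ∧ A + B ≠ 0 := by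
  have key : ∀ j : ℤ, j ≠ 0 → |j| < M → (j : ZMod M) ≠ 0 := fun j h1 h2 => intCast_ne h1 h2
  rcases Nat.lt_or_ge p 1 with hp | hp
  · have hp0 : p = 0 := by omega
    subst hp0
    refine ⟨1, 1, by simp, ?_, ?_, ?_, ?_, ?_⟩
    · have := key 1 (by norm_num) (by simp; omega)
      simpa using this
    · intro h'
      apply key 1 (by norm_num) (by simp; omega)
      push_cast
      linear_combination -h'
    · have := key 1 (by norm_num) (by simp; omega)
      simpa using this
    · intro h'
      apply key 1 (by norm_num) (by simp; omega)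
      push_cast
      linear_combination -h'
    · intro h'
      apply key 2 (by norm_num) (by simp; omega)
      push_cast
      linear_combination h'
  rcases Nat.lt_or_ge p 2 with hp2 | hp2
  · have hp0 : p = 1 := by omega
    subst hp0
    have hM : 5 ≤ M := h
    refine ⟨3, -2, by push_cast; ring, ?_, ?_, ?_, ?_, ?_⟩
    · have := key 3 (by norm_num) (by simp; omega)
      simpa using this
    · intro h'
      apply key 1 (by norm_num) (by simp; omega)
      push_cast
      linear_combination h'
    · intro h'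
      apply key 2 (by norm_num) (by simp; omega)
      push_cast
      linear_combination -h'
    · intro h'
      apply key 4 (by norm_num) (by simp; omega)
      push_cast
      linear_combination -h'
    · intro h'
      apply key 1 (by norm_num) (by simp; omega)
      push_cast
      linear_combination h'
  rcases Nat.lt_or_ge p 3 with hp3 | hp3
  · have hp0 : p = 2 := by omega
    subst hp0
    have hM : 7 ≤ M := h
    refine ⟨-1, 3, by push_cast; ring, ?_, ?_, ?_, ?_, ?_⟩
    · intro h'
      apply key 1 (by norm_num) (by simp; omega)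
      push_cast
      linear_combination -h'
    · intro h'
      apply key 3 (by norm_num) (by simp; omega)
      push_cast
      linear_combination -h'
    · have := key 3 (by norm_num) (by simp; omega)
      simpa using this
    · intro h'
      apply key 1 (by norm_num) (by simp; omega)
      push_cast
      linear_combination h'
    · intro h'
      apply key 2 (by norm_num) (by simp; omega)
      push_cast
      linear_combination h'
  · refine ⟨1, 1 - p, by ring, ?_, ?_, ?_, ?_, ?_⟩
    · have := key 1 (by norm_num) (by simp; omega)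
      simpa using this
    · intro h'
      apply key 1 (by norm_num) (by simp; omega)
      push_cast
      linear_combination -h'
    · intro h'
      apply key (1 - p) (by omega) (by rw [abs_lt]; constructor <;> omega)
      push_cast
      linear_combination h'
    · intro h'
      apply key (1 + p) (by omega) (by rw [abs_lt]; constructor <;> omega)
      push_cast
      linear_combination -h'
    · intro h'
      apply key (2 - p) (by omega) (by rw [abs_lt]; constructor <;> omega)
      push_cast
      linear_combination h'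

/-- parameters of the special point -/
theorem exists_utc {M p : ℕ} (h : 2 * p + 3 ≤ M) (hodd : Odd M) :
    ∃ u t c : ZMod M, 2 * p * u + 2 * t + c = 0 ∧ 2 * c = -1 ∧ u ≠ 0 ∧ t ≠ 0 ∧ c + u ≠ 0 ∧
      c + t ≠ 0 ∧ u + t ≠ 0 := by
  obtain ⟨A, B, h1, h2, h3, h4, h5, h6⟩ := exists_AB h
  have hcop : Nat.Coprime 4 M := by
    have : Nat.Coprime 2 M := (Nat.coprime_two_left).2 hodd
    exact Nat.Coprime.mul_left this this
  have h7 := ZMod.coe_mul_inv_eq_one 4 hcop
  set ι : ZMod M := ((4 : ℕ) : ZMod M)⁻¹ with hι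
  push_cast at h7
  refine ⟨ι * A, ι * B, -2 * ι, ?_, ?_, ?_, ?_, ?_, ?_, ?_⟩
  · linear_combination 2 * ι * h1
  · linear_combination -h7
  · intro h'
    apply h2
    linear_combination 4 * h' - A * h7
  · intro h'
    apply h4
    linear_combination 4 * h' - B * h7
  · intro h'
    apply h3
    linear_combination 4 * h' - (A - 2) * h7
  · intro h'
    apply h5
    linear_combination 4 * h' - (B - 2) * h7
  · intro h'
    apply h6
    linear_combination 4 * h' - (A + B) * h7

section char

variable {M : ℕ} [NeZero M]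

/-- the standard additive character -/
noncomputable abbrev chi (a : ZMod M) : ℂ := ZMod.stdAddChar a

theorem chi_re (a : ZMod M) : (chi a).re = Real.cos (2 * Real.pi * a.val / M) := by
  have h1 : chi a = exp (2 * Real.pi * I * (a.val : ℤ) / M) := by
    rw [← ZMod.stdAddChar_coe]
    congr 1
    simp
  have h2 : (2 * Real.pi * I * ((a.val : ℤ) : ℂ) / M : ℂ) = ((2 * Real.pi * a.val / M : ℝ) : ℂ) * I := by
    push_cast
    ring
  rw [h1, h2, exp_ofReal_mul_I_re]

theorem re_min (hodd : Odd M) {c : ZMod M} (hc : 2 * c = -1) (l : ZMod M) :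
    (chi c).re ≤ (chi l).re ∧ ((chi c).re = (chi l).re → l = c ∨ l = -c) := by
  have hM0 : 0 < M := Nat.pos_of_neZero M
  have hMr : (0 : ℝ) < M := by exact_mod_cast hM0
  have hcv : 2 * c.val + 1 = M := by
    have h1 : ((2 * c.val + 1 : ℕ) : ZMod M) = 0 := by
      push_cast
      rw [ZMod.natCast_zmod_val, hc]
      ring
    rw [ZMod.natCast_eq_zero_iff] at h1
    have h2 := ZMod.val_lt c
    obtain ⟨q, hq⟩ := h1
    have h3 : q = 1 := by
      have h4 : M * q < M * 2 := by omega
      have h5 : q < 2 := lt_of_mul_lt_mul_left h4 (Nat.zero_le _)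
      have h6 : q ≠ 0 := by rintro rfl; omega
      omega
    subst h3
    omega
  have hform : ∀ a : ZMod M, (chi a).re = -Real.cos (Real.pi / M * |(M : ℝ) - 2 * a.val|) := by
    intro a
    rw [chi_re]
    have h1 : Real.pi / M * |(M : ℝ) - 2 * a.val| = |Real.pi - 2 * Real.pi * a.val / M| := by
      rw [← abs_of_pos (div_pos Real.pi_pos hMr), ← abs_mul]
      congr 1
      field_simp
    rw [h1, Real.cos_abs, Real.cos_pi_sub, neg_neg]
  have hw : ∀ a : ZMod M, (1 : ℝ) ≤ |(M : ℝ) - 2 * a.val| ∧ |(M : ℝ) - 2 * a.val| ≤ M := by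
    intro a
    have h1 := ZMod.val_lt a
    obtain ⟨q, hq⟩ := hodd
    constructor
    · have h2 : (1 : ℤ) ≤ |(M : ℤ) - 2 * a.val| := by
        apply Int.one_le_abs
        omega
      exact_mod_cast h2
    · rw [abs_le]
      have h3 : (a.val : ℝ) < M := by exact_mod_cast h1
      have h4 : (0 : ℝ) ≤ a.val := Nat.cast_nonneg _
      constructor <;> linarith
  have hcw : |(M : ℝ) - 2 * c.val| = 1 := by
    have : (M : ℝ) = 2 * c.val + 1 := by exact_mod_cast hcv.symm
    rw [this]
    ring_nf
    simp
  have hmem : ∀ a : ZMod M, Real.pi / M * |(M : ℝ) - 2 * a.val| ∈ Set.Icc (0 : ℝ) Real.pi := by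
    intro a
    obtain ⟨h1, h2⟩ := hw a
    constructor
    · positivity
    · calc Real.pi / M * |(M : ℝ) - 2 * a.val| ≤ Real.pi / M * M := by
            apply mul_le_mul_of_nonneg_left h2
            positivity
        _ = Real.pi := by field_simp
  constructor
  · rw [hform, hform, hcw, mul_one, neg_le_neg_iff]
    have h1 := hmem l
    have h2 := hmem c
    rw [hcw, mul_one] at h2
    apply Real.strictAntiOn_cos.antitoneOn h2 h1
    have := (hw l).1
    have h3 : 0 < Real.pi / M := by positivity
    nlinarith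
  · intro h
    rw [hform, hform, neg_inj] at h
    have h1 := Real.injOn_cos (hmem c) (hmem l) h
    have h3 : Real.pi / M ≠ 0 := by positivity
    have h4 := mul_left_cancel₀ h3 h1
    rw [hcw] at h4
    have h5 : |(M : ℤ) - 2 * l.val| = 1 := by
      have : ((|(M : ℤ) - 2 * l.val| : ℤ) : ℝ) = 1 := by
        push_cast
        rw [← h4]
      exact_mod_cast this
    rcases abs_eq (by norm_num : (0 : ℤ) ≤ 1) |>.1 h5 with h6 | h6
    · left
      apply ZMod.val_injective
      omega
    · right
      have h7 : l.val + c.val = M := by omega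
      have h8 : l + c = 0 := by
        rw [← ZMod.natCast_zmod_val l, ← ZMod.natCast_zmod_val c, ← Nat.cast_add, h7,
          ZMod.natCast_self]
      exact eq_neg_of_add_eq_zero_left h8

theorem chi_ne_zero (a : ZMod M) : chi a ≠ 0 := by
  intro h
  have : chi a * chi (-a) = 1 := by
    rw [chi, chi, ← AddChar.map_add_eq_mul, add_neg_cancel, AddChar.map_zero_eq_one]
  rw [h, zero_mul] at this
  exact zero_ne_one this

theorem chi_add (a b : ZMod M) : chi (a + b) = chi a * chi b := AddChar.map_add_eq_mul _ _ _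

theorem chi_conj (a : ZMod M) : (starRingEnd ℂ) (chi a) = chi (-a) := by
  rw [chi, chi, AddChar.map_neg_eq_conj]

theorem chi_mul_conj (a : ZMod M) : chi a * (starRingEnd ℂ) (chi a) = 1 := by
  rw [chi_conj, ← chi_add, add_neg_cancel, chi, AddChar.map_zero_eq_one]

theorem sq_sub (a b : ZMod M) :
    (chi a - chi b) ^ 2 = -(chi a * chi b) * (normSq (chi a - chi b) : ℂ) := by
  have h1 := chi_mul_conj a
  have h2 := chi_mul_conj b
  rw [← mul_conj, map_sub]
  generalize (starRingEnd ℂ) (chi a) = a' at *
  generalize (starRingEnd ℂ) (chi b) = b' at *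
  linear_combination (chi a * chi b - chi b ^ 2) * h1 + (chi a * chi b - chi a ^ 2) * h2

theorem sq_one_sub (a b : ZMod M) :
    (1 - chi a * chi b) ^ 2 = -(chi a * chi b) * (normSq (1 - chi a * chi b) : ℂ) := by
  have h1 := chi_mul_conj a
  have h2 := chi_mul_conj b
  rw [← mul_conj, map_sub, map_mul, map_one]
  generalize (starRingEnd ℂ) (chi a) = a' at *
  generalize (starRingEnd ℂ) (chi b) = b' at *
  linear_combination (-(1 - chi a * chi b) * chi b * b') * h1 + (-(1 - chi a * chi b)) * h2


/-- the determinant of the cyclic system is nonzero at each frequency -/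
theorem freq_ne (hodd : Odd M) {p : ℕ} {u t c : ZMod M} (hc : 2 * c = -1) (hu : u ≠ 0)
    (ht : t ≠ 0) (hcu : c + u ≠ 0) (hct : c + t ≠ 0) (hut : u + t ≠ 0) (l : ZMod M) :
    (chi u - chi l) ^ (2 * p) * (chi t - chi l) ^ 2 * (chi c - chi l) ≠
      (1 - chi u * chi l) ^ (2 * p) * (1 - chi t * chi l) ^ 2 * (1 - chi c * chi l) := by
  intro h
  have hinj : Function.Injective (fun a : ZMod M => chi a) := ZMod.injective_stdAddChar
  have hchi0 : ∀ a b : ZMod M, 1 - chi a * chi b = 0 → a + b = 0 := by
    intro a b hab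
    apply hinj
    show chi (a + b) = chi 0
    rw [chi_add]
    have : chi (0 : ZMod M) = 1 := AddChar.map_zero_eq_one _
    rw [this]
    linear_combination -hab
  have hchi1 : ∀ a b : ZMod M, chi a - chi b = 0 → a = b := by
    intro a b hab
    apply hinj
    show chi a = chi b
    linear_combination hab
  have h2 : ∀ a : ZMod M, a ≠ 0 → a + a ≠ 0 := by
    intro a ha h'
    apply ha
    have : a + a = 2 * a := by ring
    rw [this] at h'
    have h3 : (2 * c) * a = 0 := by linear_combination c * h'
    rw [hc] at h3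
    linear_combination -h3
  set a : ℝ := normSq (chi u - chi l) ^ p * normSq (chi t - chi l) with ha
  set b : ℝ := normSq (1 - chi u * chi l) ^ p * normSq (1 - chi t * chi l) with hb
  have ha0 : 0 ≤ a := by
    rw [ha]; exact mul_nonneg (pow_nonneg (normSq_nonneg _) _) (normSq_nonneg _)
  have hb0 : 0 ≤ b := by
    rw [hb]; exact mul_nonneg (pow_nonneg (normSq_nonneg _) _) (normSq_nonneg _)
  have hE : (-(chi u * chi l)) ^ p * (-(chi t * chi l)) ≠ 0 := by
    apply mul_ne_zero
    · apply pow_ne_zero
      exact neg_ne_zero.2 (mul_ne_zero (chi_ne_zero _) (chi_ne_zero _))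
    · exact neg_ne_zero.2 (mul_ne_zero (chi_ne_zero _) (chi_ne_zero _))
  have h3 : (a : ℂ) * (chi c - chi l) = (b : ℂ) * (1 - chi c * chi l) := by
    apply mul_left_cancel₀ hE
    rw [pow_mul, pow_mul, sq_sub u l, sq_sub t l, sq_one_sub u l, sq_one_sub t l] at h
    rw [mul_pow, mul_pow] at h
    rw [ha, hb]
    push_cast
    linear_combination h
  have h4 : (chi c - chi l) * (starRingEnd ℂ) (1 - chi c * chi l) =
      ((2 * ((chi c).re - (chi l).re) : ℝ) : ℂ) := by
    have e1 := chi_mul_conj c
    have e2 := chi_mul_conj l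
    have e3 : ((2 * ((chi c).re - (chi l).re) : ℝ) : ℂ) =
        (chi c + (starRingEnd ℂ) (chi c)) - (chi l + (starRingEnd ℂ) (chi l)) := by
      rw [add_conj, add_conj]
      push_cast
      ring
    rw [e3, map_sub, map_mul, map_one]
    generalize (starRingEnd ℂ) (chi c) = c' at *
    generalize (starRingEnd ℂ) (chi l) = l' at *
    linear_combination (-l') * e1 + c' * e2
  have h5 : a * (2 * ((chi c).re - (chi l).re)) = b * normSq (1 - chi c * chi l) := by
    have : ((a * (2 * ((chi c).re - (chi l).re)) : ℝ) : ℂ) =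
        ((b * normSq (1 - chi c * chi l) : ℝ) : ℂ) := by
      push_cast
      rw [← mul_conj]
      have h4' := h4
      push_cast at h4'
      rw [← h4']
      linear_combination (starRingEnd ℂ) (1 - chi c * chi l) * h3
    exact_mod_cast this
  obtain ⟨h6, h7⟩ := re_min hodd hc l
  have h8 : b * normSq (1 - chi c * chi l) = 0 := by
    apply le_antisymm
    · rw [← h5]
      apply mul_nonpos_of_nonneg_of_nonpos ha0
      linarith
    · exact mul_nonneg hb0 (normSq_nonneg _)
  have h9 : a * ((chi c).re - (chi l).re) = 0 := by linarith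
  have haz : a = 0 → l = u ∨ l = t := by
    intro h'
    rw [ha, mul_eq_zero] at h'
    rcases h' with h' | h'
    · left
      exact (hchi1 _ _ (normSq_eq_zero.1 ((pow_eq_zero_iff (by rintro rfl; simp at h')).1 h'))).symm
    · right
      exact (hchi1 _ _ (normSq_eq_zero.1 h')).symm
  have hbz : b = 0 → u + l = 0 ∨ t + l = 0 := by
    intro h'
    rw [hb, mul_eq_zero] at h'
    rcases h' with h' | h'
    · left
      exact hchi0 _ _ (normSq_eq_zero.1 ((pow_eq_zero_iff (by rintro rfl; simp at h')).1 h'))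
    · right
      exact hchi0 _ _ (normSq_eq_zero.1 h')
  have hcne : c ≠ 0 := by
    rintro rfl
    apply h2 u hu
    have h1 : (0 : ZMod M) = 1 := by linear_combination -hc
    calc u + u = 1 * (u + u) := by ring
      _ = 0 * (u + u) := by rw [← h1]
      _ = 0 := by ring
  by_cases hcl : 1 - chi c * chi l = 0
  · have h10 : c + l = 0 := hchi0 _ _ hcl
    rw [hcl, mul_zero] at h3
    rcases mul_eq_zero.1 h3 with h11 | h11
    · rcases haz (by exact_mod_cast h11) with h12 | h12
      · subst h12; exact hcu h10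
      · subst h12; exact hct h10
    · have := hchi1 _ _ h11
      subst this
      exact h2 c hcne h10
  · have h10 : c + l ≠ 0 := by
      intro h'
      apply hcl
      rw [← chi_add, h']
      have : chi (0 : ZMod M) = 1 := AddChar.map_zero_eq_one _
      rw [this, sub_self]
    have h11 : b = 0 := by
      rcases mul_eq_zero.1 h8 with h | h
      · exact h
      · exact absurd (normSq_eq_zero.1 h) hcl
    have h12 := hbz h11
    rcases mul_eq_zero.1 h9 with h13 | h13
    · rcases haz h13 with rfl | rfl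
      · rcases h12 with h | h
        · exact h2 l hu h
        · exact hut (by rw [add_comm]; exact h)
      · rcases h12 with h | h
        · exact hut h
        · exact h2 l ht h
    · rcases h7 (by linarith) with rfl | rfl
      · rcases h12 with h | h
        · exact hcu (by rw [add_comm]; exact h)
        · exact hct (by rw [add_comm]; exact h)
      · exact h10 (by ring)

end char

/-- telescoping along a cycle -/
theorem cyc {N : ℕ} [NeZero N] (α β u : ZMod N → ℂ) (h : ∀ i, α i * u i = β i * u (i + 1))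
    (j : ZMod N) : (∏ i, α i) * u j = (∏ i, β i) * u j := by
  have key : ∀ r : ℕ, (∏ k ∈ range r, α (j + (k : ZMod N))) * u j =
      (∏ k ∈ range r, β (j + (k : ZMod N))) * u (j + (r : ZMod N)) := by
    intro r
    induction r with
    | zero => simp
    | succ r ih =>
      rw [prod_range_succ, prod_range_succ, mul_comm (∏ k ∈ range r, α (j + (k : ZMod N))),
        mul_assoc, ih, mul_assoc]
      have h1 := h (j + (r : ZMod N))
      have h2 : j + ((r + 1 : ℕ) : ZMod N) = j + (r : ZMod N) + 1 := by push_cast; ring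
      rw [h2]
      linear_combination (∏ k ∈ range r, β (j + (k : ZMod N))) * h1
  have hprod : ∀ g : ZMod N → ℂ, ∏ k ∈ range N, g (j + (k : ZMod N)) = ∏ i, g i := by
    intro g
    rw [← Fintype.prod_equiv (Equiv.addLeft j) (fun i => g (j + i)) g (fun i => rfl)]
    symm
    refine prod_bij (fun i _ => i.val) ?_ ?_ ?_ ?_
    · intro i _
      rw [mem_range]; exact ZMod.val_lt i
    · intro i _ i' _ h'
      exact ZMod.val_injective N h'
    · intro b hb
      rw [mem_range] at hb
      exact ⟨(b : ZMod N), mem_univ _, ZMod.val_cast_of_lt hb⟩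
    · intro i _
      rw [ZMod.natCast_zmod_val]
  have := key N
  rw [hprod, hprod, ZMod.natCast_self, add_zero] at this
  exact this


theorem good_of {N M : ℕ} [NeZero N] [NeZero M] (σ : ZMod N → ZMod M)
    (hne : ∀ l : ZMod M, ∏ i, (chi (σ (i + 1) - σ i) - chi l) ≠
      ∏ i, (1 - chi (σ (i + 1) - σ i) * chi l)) : Good N M := by
  refine ⟨fun i k => chi (k * σ i), fun y hy => ?_⟩
  obtain ⟨z, hz⟩ : ∃ z : ZMod N → ZMod M → ℂ, ∀ i k, z i k = y i k * chi (-(k * σ i)) :=
    ⟨_, fun _ _ => rfl⟩
  have hyz : ∀ i k, y i k = chi (k * σ i) * z i k := by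
    intro i k
    rw [hz]
    have : chi (k * σ i) * chi (-(k * σ i)) = 1 := by
      rw [← chi_add, add_neg_cancel]; exact AddChar.map_zero_eq_one _
    linear_combination (-(y i k)) * this
  have heq : ∀ i k, chi (σ (i + 1) - σ i) * (z (i + 1) (k + 1) + z i k) =
      z (i + 1) k + z i (k + 1) := by
    intro i k
    have h1 := hy i k
    rw [hyz, hyz, hyz, hyz] at h1
    have e1 : chi (k * σ i) * chi ((k + 1) * σ (i + 1)) =
        chi (σ (i + 1) - σ i) * (chi ((k + 1) * σ i) * chi (k * σ (i + 1))) := by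
      rw [← chi_add, ← chi_add, ← chi_add]
      congr 1
      ring
    have hne : chi ((k + 1) * σ i) * chi (k * σ (i + 1)) ≠ 0 :=
      mul_ne_zero (chi_ne_zero _) (chi_ne_zero _)
    apply mul_left_cancel₀ hne
    linear_combination h1 - (z (i + 1) (k + 1) + z i k) * e1
  -- Fourier transform
  have hU : ∀ l : ZMod M, ∀ i, ∑ k, chi (-(k * l)) * z i k = 0 := by
    intro l
    obtain ⟨U, hUdef⟩ : ∃ U : ZMod N → ℂ, ∀ i, U i = ∑ k, chi (-(k * l)) * z i k :=
      ⟨_, fun _ => rfl⟩
    have hshift : ∀ i, ∑ k, chi (-(k * l)) * z i (k + 1) = chi l * U i := by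
      intro i
      rw [hUdef, mul_sum]
      apply Fintype.sum_equiv (Equiv.addRight (1 : ZMod M))
      intro k
      rw [Equiv.coe_addRight, ← mul_assoc, ← chi_add]
      congr 2
      ring
    have hrec : ∀ i, (chi (σ (i + 1) - σ i) - chi l) * U i =
        (1 - chi (σ (i + 1) - σ i) * chi l) * U (i + 1) := by
      intro i
      have h1 : ∑ k, chi (-(k * l)) * (chi (σ (i + 1) - σ i) * (z (i + 1) (k + 1) + z i k)) =
          ∑ k, chi (-(k * l)) * (z (i + 1) k + z i (k + 1)) := by
        apply sum_congr rfl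
        intro k _
        rw [heq]
      have h2 : ∑ k, chi (-(k * l)) * (chi (σ (i + 1) - σ i) * (z (i + 1) (k + 1) + z i k)) =
          chi (σ (i + 1) - σ i) * (chi l * U (i + 1) + U i) := by
        rw [← hshift, hUdef, ← sum_add_distrib, mul_sum]
        apply sum_congr rfl
        intro k _
        ring
      have h3 : ∑ k, chi (-(k * l)) * (z (i + 1) k + z i (k + 1)) = U (i + 1) + chi l * U i := by
        rw [← hshift, hUdef, ← sum_add_distrib]
        apply sum_congr rfl
        intro k _
        ring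
      rw [h2, h3] at h1
      linear_combination h1
    intro i
    have h1 := cyc _ _ U hrec i
    have h3 : (∏ i, (chi (σ (i + 1) - σ i) - chi l) -
      ∏ i, (1 - chi (σ (i + 1) - σ i) * chi l)) * U i = 0 := by
      linear_combination h1
    rw [← hUdef]
    rcases mul_eq_zero.1 h3 with h4 | h4
    · exact absurd (sub_eq_zero.1 h4) (hne l)
    · exact h4
  intro i k
  have h1 : ZMod.dft (z i) = 0 := by
    funext l
    rw [ZMod.dft_apply]
    simp only [smul_eq_mul]
    exact hU l i
  rw [map_eq_zero_iff _ (LinearEquiv.injective _)] at h1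
  rw [hyz, h1]
  simp

/-- partial sums -/
def tau {M : ℕ} (p : ℕ) (u t : ZMod M) (k : ℕ) : ZMod M :=
  if k ≤ 2 * p then k * u else if k = 2 * p + 1 then 2 * p * u + t else 2 * p * u + 2 * t

theorem prod_tau {N M p : ℕ} [NeZero N] (hN : N = 2 * p + 3) {u t c : ZMod M}
    (h0 : 2 * p * u + 2 * t + c = 0) (g : ZMod M → ℂ) :
    ∏ i : ZMod N, g (tau p u t (i + 1).val - tau p u t i.val) =
      g u ^ (2 * p) * g t ^ 2 * g c := by
  obtain ⟨σ, hσ⟩ : ∃ σ : ZMod N → ZMod M, ∀ i, σ i = tau p u t i.val := ⟨_, fun _ => rfl⟩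
  have h1 : ∏ i : ZMod N, g (tau p u t (i + 1).val - tau p u t i.val) =
      ∏ k ∈ range N, g (σ ((k : ZMod N) + 1) - σ (k : ZMod N)) := by
    refine prod_bij (fun i _ => i.val) ?_ ?_ ?_ ?_
    · intro i _
      rw [mem_range]; exact ZMod.val_lt i
    · intro i _ i' _ h'
      exact ZMod.val_injective N h'
    · intro b hb
      rw [mem_range] at hb
      exact ⟨(b : ZMod N), mem_univ _, ZMod.val_cast_of_lt hb⟩
    · intro i _
      rw [ZMod.natCast_zmod_val, hσ, hσ]
  have hv : ∀ k : ℕ, k < N → σ (k : ZMod N) = tau p u t k := by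
    intro k hk
    rw [hσ, ZMod.val_cast_of_lt hk]
  have hv' : ∀ k : ℕ, k + 1 < N → σ ((k : ZMod N) + 1) = tau p u t (k + 1) := by
    intro k hk
    rw [← hv (k + 1) hk, Nat.cast_add, Nat.cast_one]
  have hr : range N = range (2 * p + 1 + 1 + 1) := by rw [hN]
  rw [h1, hr, prod_range_succ, prod_range_succ, prod_range_succ]
  have e1 : ∏ k ∈ range (2 * p), g (σ ((k : ZMod N) + 1) - σ (k : ZMod N)) = g u ^ (2 * p) := by
    rw [prod_congr rfl (g := fun _ => g u), prod_const, card_range]
    intro k hk
    rw [mem_range] at hk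
    rw [hv k (by omega), hv' k (by omega)]
    congr 1
    unfold tau
    rw [if_pos (by omega), if_pos (by omega)]
    push_cast
    ring
  have e2 : σ (((2 * p : ℕ) : ZMod N) + 1) - σ ((2 * p : ℕ) : ZMod N) = t := by
    rw [hv (2 * p) (by omega), hv' (2 * p) (by omega)]
    unfold tau
    rw [if_neg (by omega), if_pos rfl, if_pos le_rfl]
    push_cast
    ring
  have e3 : σ (((2 * p + 1 : ℕ) : ZMod N) + 1) - σ ((2 * p + 1 : ℕ) : ZMod N) = t := by
    rw [hv (2 * p + 1) (by omega), hv' (2 * p + 1) (by omega)]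
    unfold tau
    rw [if_neg (by omega), if_neg (by omega), if_neg (by omega), if_pos rfl]
    ring
  have e4 : σ (((2 * p + 1 + 1 : ℕ) : ZMod N) + 1) - σ ((2 * p + 1 + 1 : ℕ) : ZMod N) = c := by
    have h2 : (((2 * p + 1 + 1 : ℕ) : ZMod N) + 1) = ((0 : ℕ) : ZMod N) := by
      have h3 : ((2 * p + 1 + 1 : ℕ) : ZMod N) + 1 = ((2 * p + 3 : ℕ) : ZMod N) := by
        push_cast; ring
      rw [h3, ← hN, ZMod.natCast_self, Nat.cast_zero]
    rw [h2, hv 0 (by omega), hv (2 * p + 1 + 1) (by omega)]
    unfold tau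
    rw [if_pos (by omega), if_neg (by omega), if_neg (by omega)]
    push_cast
    linear_combination -h0
  rw [e1, e2, e3, e4]
  ring

theorem good_aux {N M p : ℕ} (hN : N = 2 * p + 3) (h : N ≤ M) (hodd : Odd M) : Good N M := by
  obtain ⟨u, t, c, h0, hc, hu, ht, hcu, hct, hut⟩ := exists_utc (p := p) (by omega) hodd
  have : NeZero M := ⟨by omega⟩
  have : NeZero N := ⟨by omega⟩
  refine good_of (fun i : ZMod N => tau p u t i.val) (fun l => ?_)
  rw [prod_tau hN h0 (fun a => chi a - chi l), prod_tau hN h0 (fun a => 1 - chi a * chi l)]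
  exact freq_ne hodd (p := p) hc hu ht hcu hct hut l

theorem good_odd {N M : ℕ} (hN : Odd N) (hM : Odd M) (hN3 : 3 ≤ N) (hM3 : 3 ≤ M) : Good N M := by
  rcases le_total N M with h | h
  · obtain ⟨q, hq⟩ := hN
    exact good_aux (p := q - 1) (by omega) h hM
  · apply Good.symm
    obtain ⟨q, hq⟩ := hM
    exact good_aux (p := q - 1) (by omega) h hN

/-! ### The generic point -/

/-- matrix of the system -/
def Jmat {N M : ℕ} {R : Type*} [CommRing R] (x : ZMod N → ZMod M → R) :
    Matrix (ZMod N × ZMod M) (ZMod N × ZMod M) R := fun e a =>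
  (if a = (e.1 + 1, e.2 + 1) then x e.1 e.2 else 0) +
    (if a = (e.1, e.2) then x (e.1 + 1) (e.2 + 1) else 0) -
    (if a = (e.1 + 1, e.2) then x e.1 (e.2 + 1) else 0) -
    (if a = (e.1, e.2 + 1) then x (e.1 + 1) e.2 else 0)

theorem Jmat_map {N M : ℕ} [NeZero N] [NeZero M] {R R' : Type*} [CommRing R] [CommRing R'] (φ : R →+* R')
    (x : ZMod N → ZMod M → R) :
    φ.mapMatrix (Jmat x) = Jmat (fun i k => φ (x i k)) := by
  ext e a
  rw [RingHom.mapMatrix_apply, Matrix.map_apply]
  unfold Jmat
  simp only [map_sub, map_add, apply_ite φ, map_zero]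

theorem Jmat_mulVec {N M : ℕ} [NeZero N] [NeZero M] {R : Type*} [CommRing R]
    (x : ZMod N → ZMod M → R) (y : ZMod N × ZMod M → R) (e : ZMod N × ZMod M) :
    (Jmat x).mulVec y e = x e.1 e.2 * y (e.1 + 1, e.2 + 1) + x (e.1 + 1) (e.2 + 1) * y (e.1, e.2) -
      x e.1 (e.2 + 1) * y (e.1 + 1, e.2) - x (e.1 + 1) e.2 * y (e.1, e.2 + 1) := by
  unfold Matrix.mulVec dotProduct Jmat
  simp only [sub_mul, add_mul, ite_mul, zero_mul, sum_sub_distrib, sum_add_distrib,
    sum_ite_eq', mem_univ, if_true]

theorem det_ne_of {N M : ℕ} [NeZero N] [NeZero M] {K : Type*} [Field K]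
    (x : ZMod N → ZMod M → K) (h : ∀ y, Sys x y → ∀ i k, y i k = 0) : (Jmat x).det ≠ 0 := by
  intro hdet
  obtain ⟨v, hv, hv0⟩ := Matrix.exists_mulVec_eq_zero_iff.2 hdet
  apply hv
  funext a
  obtain ⟨i, k⟩ := a
  refine h (fun i k => v (i, k)) (fun i k => ?_) i k
  have := congrFun hv0 (i, k)
  rw [Jmat_mulVec] at this
  rw [Pi.zero_apply] at this
  linear_combination this

theorem sys_of_det {N M : ℕ} [NeZero N] [NeZero M] {K : Type*} [Field K]
    (x : ZMod N → ZMod M → K) (h : (Jmat x).det ≠ 0) (y : ZMod N → ZMod M → K) (hy : Sys x y)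
    (i : ZMod N) (k : ZMod M) : y i k = 0 := by
  by_contra hne
  apply h
  rw [← Matrix.exists_mulVec_eq_zero_iff]
  refine ⟨fun a => y a.1 a.2, fun h0 => hne (congrFun h0 (i, k)), ?_⟩
  funext e
  rw [Jmat_mulVec, Pi.zero_apply]
  linear_combination hy e.1 e.2

theorem generic_det {N M : ℕ} [NeZero N] [NeZero M] (h : Good N M) :
    (Jmat (fun i k => (MvPolynomial.X (i, k) : MvPolynomial (ZMod N × ZMod M) ℤ))).det ≠ 0 := by
  obtain ⟨x, hx⟩ := h
  have h1 := det_ne_of x hx
  intro h0
  apply h1
  have h2 := congrArg (MvPolynomial.eval₂Hom (Int.castRingHom ℂ)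
    (fun a : ZMod N × ZMod M => x a.1 a.2)) h0
  rw [RingHom.map_det, Jmat_map, map_zero] at h2
  simpa using h2

section generic

variable {n m : ℕ} (F : Type*) [Field F] [CharZero F]

/-- the polynomial ring in the variables `x_{a,b}` -/
abbrev PolyRing (n m : ℕ) (F : Type*) [Field F] := MvPolynomial (Fin n × Fin m) F

/-- the field `F(x_{a,b})` -/
abbrev RatField (n m : ℕ) (F : Type*) [Field F] := FractionRing (MvPolynomial (Fin n × Fin m) F)

/-- the variable `x_{a,b}` in the field of rational functions -/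
noncomputable def xx (a : Fin n) (b : Fin m) : RatField n m F :=
  algebraMap (PolyRing n m F) (RatField n m F) (MvPolynomial.X (a, b))

omit [CharZero F] in
theorem xx_ne_zero (a : Fin n) (b : Fin m) : xx F a b ≠ 0 := by
  unfold xx
  rw [Ne, FaithfulSMul.algebraMap_eq_zero_iff]
  exact MvPolynomial.X_ne_zero _

theorem generic_kernel {N M : ℕ} (hN : Odd N) (hM : Odd M) (hN3 : 3 ≤ N) (hM3 : 3 ≤ M)
    (c : ZMod N → Fin n) (d : ZMod M → Fin m) (hc : Function.Injective c)
    (hd : Function.Injective d) (y : ZMod N → ZMod M → RatField n m F)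
    (hy : Sys (fun i k => xx F (c i) (d k)) y) (i : ZMod N) (k : ZMod M) : y i k = 0 := by
  have : NeZero N := ⟨by omega⟩
  have : NeZero M := ⟨by omega⟩
  have hD := generic_det (good_odd hN hM hN3 hM3)
  refine sys_of_det _ ?_ y hy i k
  set g : ZMod N × ZMod M → Fin n × Fin m := fun a => (c a.1, d a.2) with hg
  have hginj : Function.Injective g := by
    rintro ⟨a, b⟩ ⟨a', b'⟩ h
    rw [hg] at h
    simp only [Prod.mk.injEq] at h
    rw [hc h.1, hd h.2]
  set ψ : MvPolynomial (ZMod N × ZMod M) ℤ →+* RatField n m F :=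
    (algebraMap (PolyRing n m F) (RatField n m F)).comp
      ((MvPolynomial.map (Int.castRingHom F)).comp
        (MvPolynomial.rename g : MvPolynomial (ZMod N × ZMod M) ℤ →ₐ[ℤ] _).toRingHom) with hψ
  have hψinj : Function.Injective ψ := by
    rw [hψ]
    have i1 := IsFractionRing.injective (PolyRing n m F) (RatField n m F)
    have i2 := MvPolynomial.map_injective (σ := Fin n × Fin m) (Int.castRingHom F)
      (RingHom.injective_int _)
    have i3 := MvPolynomial.rename_injective (R := ℤ) g hginj
    exact i1.comp (i2.comp i3)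
  have h1 : (Jmat (fun i k => xx F (c i) (d k))).det =
      ψ (Jmat (fun i k => (MvPolynomial.X (i, k) : MvPolynomial (ZMod N × ZMod M) ℤ))).det := by
    rw [RingHom.map_det, Jmat_map]
    congr 2
    funext i k
    rw [hψ]
    simp [xx, hg]
  rw [h1]
  intro h0
  apply hD
  apply hψinj
  rw [h0, map_zero]

end generic

/-! ### Graphs -/

section graphs

variable {V W K : Type*} [Field K]

/-- the linearised minors have no common zero -/
def Nondeg (x : V → W → K) (G : SimpleGraph V) (H : SimpleGraph W) : Prop :=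
  ∀ Y : V → W → K, (∀ i j k l, G.Adj i j → H.Adj k l →
    x i k * Y j l + Y i k * x j l - x i l * Y j k - Y i l * x j k = 0) → ∀ i k, Y i k = 0

theorem Nondeg.symm {x : V → W → K} {G : SimpleGraph V} {H : SimpleGraph W}
    (h : Nondeg x G H) : Nondeg (fun k i => x i k) H G := by
  intro Y hY k i
  refine h (fun i k => Y k i) (fun i j k l hij hkl => ?_) i k
  have := hY k l i j hkl hij
  linear_combination this

theorem Nondeg.no_leaf {x : V → W → K} {G : SimpleGraph V} {H : SimpleGraph W}
    (h : Nondeg x G H) (hx : ∀ i k, x i k ≠ 0) [Nonempty W] {v c : V} (hvc : G.Adj v c) :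
    ∃ c', c' ≠ c ∧ G.Adj v c' := by
  classical
  by_contra hcon
  push Not at hcon
  have huniq : ∀ j, G.Adj v j → j = c := fun j hj => by
    by_contra hne
    exact hcon j hne hj
  have hcv : c ≠ v := hvc.ne'
  obtain ⟨w⟩ := ‹Nonempty W›
  have h0 := h (fun i k => if i = v then x c k else 0) (fun i j k l hij _ => ?_) v w
  · simp only [if_true] at h0
    exact hx c w h0
  · by_cases hi : i = v
    · subst hi
      have hj := huniq j hij
      subst hj
      simp only [if_true, if_neg hcv]
      ring
    · by_cases hj : j = v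
      · subst hj
        have hi' := huniq i hij.symm
        subst hi'
        simp only [if_true, if_neg hi]
        ring
      · simp only [if_neg hi, if_neg hj]
        ring

theorem Nondeg.no_even {x : V → W → K} {G : SimpleGraph V} {H : SimpleGraph W}
    (h : Nondeg x G H) (hx : ∀ i k, x i k ≠ 0) [Nonempty W] {N : ℕ} (h2 : 2 ∣ N)
    (c : ZMod N → V) (hc : Function.Injective c)
    (hnb : ∀ i w, G.Adj (c i) w → w = c (i + 1) ∨ w = c (i - 1)) : False := by
  classical
  obtain ⟨w⟩ := ‹Nonempty W›
  set π := ZMod.castHom h2 (ZMod 2) with hπ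
  obtain ⟨ε, hε⟩ : ∃ ε : V → K, (∀ i, ε (c i) = if π i = 0 then 1 else -1) ∧
      ∀ v, (∀ i, c i ≠ v) → ε v = 0 := by
    refine ⟨fun v => if hv : ∃ i, c i = v then (if π hv.choose = 0 then 1 else -1) else 0, ?_, ?_⟩
    · intro i
      have hv : ∃ j, c j = c i := ⟨i, rfl⟩
      show (if hv : ∃ j, c j = c i then (if π hv.choose = 0 then (1 : K) else -1) else 0) = _
      rw [dif_pos hv, hc hv.choose_spec]
    · intro v hv
      have hv' : ¬ ∃ i, c i = v := by
        rintro ⟨i, hi⟩
        exact hv i hi
      show (if hv : ∃ j, c j = v then (if π hv.choose = 0 then (1 : K) else -1) else 0) = _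
      rw [dif_neg hv']
  have hflip : ∀ b : ZMod 2, (if b + 1 = 0 then (1 : K) else -1) = -(if b = 0 then 1 else -1) := by
    intro b
    have hb : b = 0 ∨ b = 1 := by revert b; decide
    rcases hb with rfl | rfl
    · rw [zero_add, if_neg one_ne_zero, if_pos rfl]
    · have h11 : ((1 : ZMod 2) + 1 = 0) := by decide
      rw [if_pos h11, if_neg one_ne_zero, neg_neg]
  have hsucc : ∀ i, ε (c (i + 1)) = - ε (c i) := by
    intro i
    rw [hε.1, hε.1, map_add, map_one, hflip]
  have hpred : ∀ i, ε (c (i - 1)) = - ε (c i) := by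
    intro i
    have := hsucc (i - 1)
    rw [sub_add_cancel] at this
    rw [this, neg_neg]
  have hadj : ∀ i j, G.Adj i j → ε i + ε j = 0 := by
    have key : ∀ i j, G.Adj i j → (∃ a, c a = i) → ε i + ε j = 0 := by
      rintro i j hij ⟨a, rfl⟩
      rcases hnb a j hij with rfl | rfl
      · rw [hsucc]; ring
      · rw [hpred]; ring
    intro i j hij
    by_cases hi : ∃ a, c a = i
    · exact key i j hij hi
    · by_cases hj : ∃ a, c a = j
      · rw [add_comm]
        exact key j i hij.symm hj
      · rw [hε.2 i (fun a ha => hi ⟨a, ha⟩), hε.2 j (fun a ha => hj ⟨a, ha⟩), add_zero]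
  have h0 := h (fun i k => ε i * x i k) (fun i j k l hij _ => ?_) (c 0) w
  · have : ε (c 0) ≠ 0 := by
      rw [hε.1, map_zero, if_pos rfl]
      exact one_ne_zero
    exact mul_ne_zero this (hx _ _) h0
  · linear_combination (x i k * x j l - x i l * x j k) * hadj i j hij

end graphs

/-! ### Cycles in graphs -/

/-- `G` is a vertex-disjoint union of cycles of odd length: every vertex has exactly two
neighbours (so that `G` is a vertex-disjoint union of cycles) and every cycle of `G` has odd
length. -/
def IsOddCycleUnion {V : Type*} (G : SimpleGraph V) : Prop :=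
  (∀ v, (G.neighborSet v).ncard = 2) ∧ ∀ (v : V) (p : G.Walk v v), p.IsCycle → Odd p.length

section cycles

variable {V : Type*} [Finite V] {G : SimpleGraph V}

/-- a cyclic parametrisation of a cycle -/
theorem param {v : V} (p : G.Walk v v) (hp : p.IsCycle) :
    ∃ c : ZMod p.length → V, Function.Injective c ∧ (∀ i, G.Adj (c i) (c (i + 1))) ∧ c 0 = v := by
  have h3 := hp.three_le_length
  have : NeZero p.length := ⟨by omega⟩
  refine ⟨fun i => p.getVert i.val, ?_, ?_, ?_⟩
  · intro i j h
    apply ZMod.val_injective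
    have hi := ZMod.val_lt i
    have hj := ZMod.val_lt j
    apply hp.getVert_injOn' _ _ h
    · show i.val ≤ p.length - 1
      omega
    · show j.val ≤ p.length - 1
      omega
  · intro i
    have hi := ZMod.val_lt i
    have h1 := p.adj_getVert_succ hi
    by_cases h : i.val + 1 < p.length
    · have h2 : (i + 1).val = i.val + 1 := by
        have h5 : i + 1 = ((i.val + 1 : ℕ) : ZMod p.length) := by
          rw [Nat.cast_add, ZMod.natCast_zmod_val, Nat.cast_one]
        rw [h5, ZMod.val_cast_of_lt h]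
      show G.Adj (p.getVert i.val) (p.getVert (i + 1).val)
      rw [h2]
      exact h1
    · have h2 : i.val + 1 = p.length := by omega
      have h4 : i + 1 = 0 := by
        rw [← ZMod.natCast_zmod_val i, ← Nat.cast_one, ← Nat.cast_add, h2, ZMod.natCast_self]
      show G.Adj (p.getVert i.val) (p.getVert (i + 1).val)
      rw [h4, ZMod.val_zero]
      rw [h2, SimpleGraph.Walk.getVert_length] at h1
      rw [SimpleGraph.Walk.getVert_zero]
      exact h1
  · show p.getVert (0 : ZMod p.length).val = v
    rw [ZMod.val_zero, SimpleGraph.Walk.getVert_zero]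

theorem exists_cycle (h : ∀ v, (G.neighborSet v).ncard = 2) (v : V) :
    ∃ p : G.Walk v v, p.IsCycle := by
  have hcyc : G.IsCycles := fun w _ => h w
  have hne : (G.neighborSet v).Nonempty := by
    apply Set.nonempty_of_ncard_ne_zero
    rw [h v]
    norm_num
  obtain ⟨p, hp, -⟩ := hcyc.exists_cycle_toSubgraph_verts_eq_connectedComponentSupp
    (c := G.connectedComponentMk v) rfl hne
  exact ⟨p, hp⟩

theorem nbrs {a b c w : V} (hdeg : (G.neighborSet a).ncard = 2) (hb : G.Adj a b) (hc : G.Adj a c)
    (hbc : b ≠ c) (hw : G.Adj a w) : w = b ∨ w = c := by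
  have hsub : ({b, c} : Set V) ⊆ G.neighborSet a := by
    intro x hx
    rcases hx with rfl | hx
    · exact hb
    · rw [Set.mem_singleton_iff] at hx
      subst hx
      exact hc
  have heq : ({b, c} : Set V) = G.neighborSet a := by
    apply Set.eq_of_subset_of_ncard_le hsub
    rw [hdeg, Set.ncard_pair hbc]
  have : w ∈ ({b, c} : Set V) := by rw [heq]; exact hw
  rcases this with h | h
  · exact Or.inl h
  · exact Or.inr h

end cycles

/-! ### Edge counting -/

/-- index set of the rows belonging to `G`: the edges `{i, j}` with `i < j` -/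
abbrev EdgeIdx {n : ℕ} (G : SimpleGraph (Fin n)) := {p : Fin n × Fin n // p.1 < p.2 ∧ G.Adj p.1 p.2}

theorem two_card_edge {n : ℕ} (G : SimpleGraph (Fin n)) :
    ∑ v, (G.neighborSet v).ncard = 2 * Nat.card (EdgeIdx G) := by
  classical
  have h1 : ∀ v, (G.neighborSet v).ncard = (univ.filter (fun w => G.Adj v w)).card := by
    intro v
    rw [Set.ncard_eq_toFinset_card']
    congr 1
    ext w
    simp
  have h2 : ∑ v, (G.neighborSet v).ncard =
      (univ.filter (fun p : Fin n × Fin n => G.Adj p.1 p.2)).card := by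
    simp_rw [h1, card_filter]
    rw [Fintype.sum_prod_type]
  have h3 : (univ.filter (fun p : Fin n × Fin n => G.Adj p.1 p.2)) =
      (univ.filter (fun p : Fin n × Fin n => p.1 < p.2 ∧ G.Adj p.1 p.2)) ∪
      (univ.filter (fun p : Fin n × Fin n => p.2 < p.1 ∧ G.Adj p.1 p.2)) := by
    ext p
    simp only [mem_filter, mem_univ, true_and, mem_union]
    constructor
    · intro h
      rcases lt_or_gt_of_ne h.ne with h' | h'
      · exact Or.inl ⟨h', h⟩
      · exact Or.inr ⟨h', h⟩
    · rintro (h | h) <;> exact h.2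
  have h4 : (univ.filter (fun p : Fin n × Fin n => p.2 < p.1 ∧ G.Adj p.1 p.2)).card =
      (univ.filter (fun p : Fin n × Fin n => p.1 < p.2 ∧ G.Adj p.1 p.2)).card := by
    apply card_bij (fun p _ => (p.2, p.1))
    · intro p hp
      simp only [mem_filter, mem_univ, true_and] at hp ⊢
      exact ⟨hp.1, hp.2.symm⟩
    · rintro ⟨a, b⟩ _ ⟨a', b'⟩ _ h
      simp only [Prod.mk.injEq] at h
      rw [h.1, h.2]
    · rintro ⟨a, b⟩ hp
      simp only [mem_filter, mem_univ, true_and] at hp
      exact ⟨(b, a), by simp only [mem_filter, mem_univ, true_and]; exact ⟨hp.1, hp.2.symm⟩, rfl⟩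
  rw [h2, h3, card_union_of_disjoint, h4, Nat.card_eq_fintype_card, Fintype.card_subtype]
  · ring
  · rw [Finset.disjoint_left]
    intro p hp hp'
    simp only [mem_filter, mem_univ, true_and] at hp hp'
    exact lt_asymm hp.1 hp'.1

/-! ### The main theorem -/

section main

variable {n m : ℕ} (F : Type*) [Field F]

/-- the generator `f_{{i,j},{k,l}} = x_{i,k} x_{j,l} - x_{i,l} x_{j,k}` -/
noncomputable def minor (i j : Fin n) (k l : Fin m) : PolyRing n m F :=
  MvPolynomial.X (i, k) * MvPolynomial.X (j, l) - MvPolynomial.X (i, l) * MvPolynomial.X (j, k)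

/-- The rows of the Jacobian matrix `H(G, H)`, indexed by pairs of edges, over the field
`F(x_{a,b})`. -/
noncomputable def row (G : SimpleGraph (Fin n)) (H : SimpleGraph (Fin m)) :
    EdgeIdx G × EdgeIdx H → (Fin n × Fin m → RatField n m F) := fun e ab =>
  algebraMap (PolyRing n m F) (RatField n m F)
    (MvPolynomial.pderiv ab (minor F e.1.1.1 e.1.1.2 e.2.1.1 e.2.1.2))

/-- The basis property: the rows of `H(G, H)` are linearly independent and span the row space of
`H(K_n, K_m)`. -/
def BasisProperty (G : SimpleGraph (Fin n)) (H : SimpleGraph (Fin m)) : Prop :=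
  LinearIndependent (RatField n m F) (row F G H) ∧
    Submodule.span (RatField n m F) (Set.range (row F G H)) =
      Submodule.span (RatField n m F) (Set.range (row F (⊤ : SimpleGraph (Fin n))
        (⊤ : SimpleGraph (Fin m))))

/-- linearised minor -/
noncomputable def lin (Y : Fin n × Fin m → RatField n m F) (i j : Fin n) (k l : Fin m) :
    RatField n m F :=
  xx F i k * Y (j, l) + Y (i, k) * xx F j l - xx F i l * Y (j, k) - Y (i, l) * xx F j k

theorem pderiv_minor (i j : Fin n) (k l : Fin m) (ab : Fin n × Fin m) :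
    algebraMap (PolyRing n m F) (RatField n m F) (MvPolynomial.pderiv ab (minor F i j k l)) =
      xx F i k * (if ab = (j, l) then 1 else 0) + (if ab = (i, k) then 1 else 0) * xx F j l -
        xx F i l * (if ab = (j, k) then 1 else 0) - (if ab = (i, l) then 1 else 0) * xx F j k := by
  have hs : ∀ (cd : Fin n × Fin m), MvPolynomial.pderiv ab (MvPolynomial.X cd : PolyRing n m F) =
      if ab = cd then 1 else 0 := by
    intro cd
    rw [MvPolynomial.pderiv_X]
    by_cases h : ab = cd
    · subst h
      simp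
    · rw [if_neg h, Pi.single_eq_of_ne (Ne.symm h)]
  unfold minor
  rw [map_sub, Derivation.leibniz, Derivation.leibniz, hs, hs, hs, hs]
  simp only [smul_eq_mul, map_sub, map_add, map_mul, xx, apply_ite (algebraMap (PolyRing n m F)
    (RatField n m F)), map_one, map_zero]
  ring

theorem row_dot (i j : Fin n) (k l : Fin m) (Y : Fin n × Fin m → RatField n m F) :
    ∑ ab, algebraMap (PolyRing n m F) (RatField n m F)
      (MvPolynomial.pderiv ab (minor F i j k l)) * Y ab = lin F Y i j k l := by
  simp_rw [pderiv_minor]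
  unfold lin
  simp only [sub_mul, add_mul, mul_ite, ite_mul, zero_mul, mul_zero, one_mul, mul_one,
    sum_sub_distrib, sum_add_distrib, sum_ite_eq', mem_univ, if_true]
  ring

theorem span_top_iff {ι κ K : Type*} [Field K] [Fintype κ] [DecidableEq κ] (r : ι → κ → K) :
    Submodule.span K (Set.range r) = ⊤ ↔ ∀ Y : κ → K, (∀ e, ∑ a, r e a * Y a = 0) → Y = 0 := by
  constructor
  · intro h Y hY
    set φ : (κ → K) →ₗ[K] K := ∑ a, (Y a) • LinearMap.proj a with hφ
    have hφ' : ∀ v, φ v = ∑ a, v a * Y a := by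
      intro v
      rw [hφ]
      simp [LinearMap.sum_apply, mul_comm]
    have h1 : Submodule.span K (Set.range r) ≤ LinearMap.ker φ := by
      rw [Submodule.span_le]
      rintro _ ⟨e, rfl⟩
      show φ (r e) = 0
      rw [hφ']
      exact hY e
    rw [h] at h1
    funext a
    have h2 : φ (Pi.single a 1) = 0 := h1 (Submodule.mem_top)
    rw [hφ'] at h2
    simpa [Pi.single_apply] using h2
  · intro h
    by_contra hne
    obtain ⟨f, hf0, hf⟩ := Submodule.exists_le_ker_of_lt_top _ (lt_top_iff_ne_top.2 hne)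
    apply hf0
    have h1 := h (fun a => f (Pi.single a 1)) (fun e => ?_)
    · ext a
      simpa using congrFun h1 a
    · have h2 : f (r e) = 0 := hf (Submodule.subset_span ⟨e, rfl⟩)
      have h3 : r e = ∑ a, (r e a) • (Pi.single a 1 : κ → K) := by
        funext b
        simp [Finset.sum_apply, Pi.single_apply]
      rw [h3, map_sum] at h2
      simpa using h2

theorem span_iff_nondeg (G : SimpleGraph (Fin n)) (H : SimpleGraph (Fin m)) :
    Submodule.span (RatField n m F) (Set.range (row F G H)) = ⊤ ↔ Nondeg (xx F) G H := by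
  rw [span_top_iff]
  constructor
  · intro h Y hY i k
    have := h (fun ab => Y ab.1 ab.2) (fun e => ?_)
    · exact congrFun this (i, k)
    · unfold row
      rw [row_dot]
      exact hY _ _ _ _ e.1.2.2 e.2.2.2
  · intro h Y hY
    have hlin : ∀ i j k l, i < j → k < l → G.Adj i j → H.Adj k l → lin F Y i j k l = 0 := by
      intro i j k l hij hkl h1 h2
      have := hY (⟨(i, j), hij, h1⟩, ⟨(k, l), hkl, h2⟩)
      unfold row at this
      rw [row_dot] at this
      exact this
    funext ab
    obtain ⟨i, k⟩ := ab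
    refine h (fun i k => Y (i, k)) (fun i j k l h1 h2 => ?_) i k
    rcases lt_or_gt_of_ne h1.ne with hij | hij <;> rcases lt_or_gt_of_ne h2.ne with hkl | hkl
    · exact hlin i j k l hij hkl h1 h2
    · have := hlin i j l k hij hkl h1 h2.symm
      unfold lin at this
      linear_combination -this
    · have := hlin j i k l hij hkl h1.symm h2
      unfold lin at this
      linear_combination -this
    · have := hlin j i l k hij hkl h1.symm h2.symm
      unfold lin at this
      linear_combination this

variable [CharZero F]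

theorem nondeg_of_cycles {G : SimpleGraph (Fin n)} {H : SimpleGraph (Fin m)}
    (hG : ∀ v, ∃ (N : ℕ) (c : ZMod N → Fin n), Odd N ∧ 3 ≤ N ∧ Function.Injective c ∧
      (∀ i, G.Adj (c i) (c (i + 1))) ∧ c 0 = v)
    (hH : ∀ v, ∃ (N : ℕ) (c : ZMod N → Fin m), Odd N ∧ 3 ≤ N ∧ Function.Injective c ∧
      (∀ i, H.Adj (c i) (c (i + 1))) ∧ c 0 = v) : Nondeg (xx F) G H := by
  intro Y hY v w
  obtain ⟨N, c, hN, hN3, hc, hcadj, hc0⟩ := hG v
  obtain ⟨M, d, hM, hM3, hd, hdadj, hd0⟩ := hH w
  have := generic_kernel F hN hM hN3 hM3 c d hc hd (fun i k => Y (c i) (d k))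
    (fun i k => hY _ _ _ _ (hcadj i) (hdadj k)) 0 0
  rw [hc0, hd0] at this
  exact this

omit [CharZero F] in
theorem top_cycles {n : ℕ} (hn : 3 ≤ n) (v : Fin n) : ∃ (N : ℕ) (c : ZMod N → Fin n), Odd N ∧
    3 ≤ N ∧ Function.Injective c ∧ (∀ i, (⊤ : SimpleGraph (Fin n)).Adj (c i) (c (i + 1))) ∧
      c 0 = v := by
  have h1 : ∃ a, a ≠ v := by
    have : Nontrivial (Fin n) := Fin.nontrivial_iff_two_le.2 (by omega)
    exact exists_ne v
  obtain ⟨a, ha⟩ := h1
  have h2 : ∃ b, b ∉ ({v, a} : Finset (Fin n)) := by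
    by_contra hcon
    push Not at hcon
    have : (univ : Finset (Fin n)).card ≤ ({v, a} : Finset (Fin n)).card :=
      card_le_card (fun x _ => hcon x)
    rw [card_univ, Fintype.card_fin] at this
    have h3 : ({v, a} : Finset (Fin n)).card ≤ 2 := card_le_two
    omega
  obtain ⟨b, hb⟩ := h2
  rw [mem_insert, mem_singleton, not_or] at hb
  have hinj : Function.Injective (![v, a, b] : ZMod 3 → Fin n) := by
    intro i j h
    have h012 : ∀ i : ZMod 3, i = 0 ∨ i = 1 ∨ i = 2 := by decide
    have hi := h012 i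
    have hj := h012 j
    rcases hi with rfl | rfl | rfl <;> rcases hj with rfl | rfl | rfl
    · rfl
    · exact absurd h (Ne.symm ha)
    · exact absurd h (Ne.symm hb.1)
    · exact absurd h ha
    · rfl
    · exact absurd h (Ne.symm hb.2)
    · exact absurd h hb.1
    · exact absurd h hb.2
    · rfl
  refine ⟨3, (![v, a, b] : ZMod 3 → Fin n), by decide, le_rfl, hinj, fun i => ?_, rfl⟩
  rw [SimpleGraph.top_adj]
  intro h
  have h3 : ∀ i : ZMod 3, i ≠ i + 1 := by decide
  exact h3 i (hinj h)

theorem span_top {n m : ℕ} (hn : 3 ≤ n) (hm : 3 ≤ m) :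
    Submodule.span (RatField n m F) (Set.range (row F (⊤ : SimpleGraph (Fin n))
      (⊤ : SimpleGraph (Fin m)))) = ⊤ := by
  rw [span_iff_nondeg]
  exact nondeg_of_cycles F (fun v => top_cycles hn v) (fun v => top_cycles hm v)

theorem odd_cycles {n : ℕ} {G : SimpleGraph (Fin n)} (hG : IsOddCycleUnion G) (v : Fin n) :
    ∃ (N : ℕ) (c : ZMod N → Fin n), Odd N ∧ 3 ≤ N ∧ Function.Injective c ∧
      (∀ i, G.Adj (c i) (c (i + 1))) ∧ c 0 = v := by
  obtain ⟨p, hp⟩ := exists_cycle hG.1 v
  obtain ⟨c, h1, h2, h3⟩ := param p hp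
  exact ⟨p.length, c, hG.2 v p hp, hp.three_le_length, h1, h2, h3⟩

theorem card_edge_of_two {n : ℕ} {G : SimpleGraph (Fin n)} (h : ∀ v, (G.neighborSet v).ncard = 2) :
    Nat.card (EdgeIdx G) = n := by
  have h1 := two_card_edge G
  simp_rw [h] at h1
  rw [sum_const, card_univ, Fintype.card_fin, smul_eq_mul] at h1
  omega

theorem odd_of_nondeg {V W K : Type*} [Finite V] [Field K] {x : V → W → K} {G : SimpleGraph V}
    {H : SimpleGraph W} (h : Nondeg x G H) (hx : ∀ i k, x i k ≠ 0) [Nonempty W]
    (hdeg : ∀ v, (G.neighborSet v).ncard = 2) : IsOddCycleUnion G := by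
  refine ⟨hdeg, fun v p hp => ?_⟩
  by_contra hodd
  rw [Nat.not_odd_iff_even] at hodd
  obtain ⟨c, hc, hadj, -⟩ := param p hp
  have h3 := hp.three_le_length
  refine h.no_even hx hodd.two_dvd c hc (fun i w hw => ?_)
  have h4 : G.Adj (c i) (c (i - 1)) := by
    have := hadj (i - 1)
    rw [sub_add_cancel] at this
    exact this.symm
  refine nbrs (hdeg _) (hadj i) h4 ?_ hw
  intro h5
  have h6 := hc h5
  have h7 : ((2 : ℤ) : ZMod p.length) = 0 := by
    push_cast
    linear_combination h6
  refine intCast_ne (M := p.length) (j := 2) (by norm_num) ?_ h7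
  rw [abs_of_pos (by norm_num)]
  omega

theorem two_le_deg {V W K : Type*} [Finite V] [Field K] {x : V → W → K} {G : SimpleGraph V}
    {H : SimpleGraph W} (h : Nondeg x G H) (hx : ∀ i k, x i k ≠ 0) [Nonempty W]
    (hG : ∀ v, ∃ w, G.Adj v w) (v : V) : 2 ≤ (G.neighborSet v).ncard := by
  obtain ⟨c, hc⟩ := hG v
  obtain ⟨c', hne, hc'⟩ := h.no_leaf hx hc
  have hsub : ({c, c'} : Set V) ⊆ G.neighborSet v := by
    intro y hy
    rcases hy with rfl | hy
    · exact hc
    · rw [Set.mem_singleton_iff] at hy
      subst hy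
      exact hc'
  calc 2 = ({c, c'} : Set V).ncard := (Set.ncard_pair (Ne.symm hne)).symm
    _ ≤ _ := Set.ncard_le_ncard hsub

theorem all_two {n : ℕ} {G : SimpleGraph (Fin n)} (h : ∀ v, 2 ≤ (G.neighborSet v).ncard)
    (hc : Nat.card (EdgeIdx G) = n) (v : Fin n) : (G.neighborSet v).ncard = 2 := by
  have h1 := two_card_edge G
  rw [hc] at h1
  have h2 : ∑ v : Fin n, 2 = ∑ v, (G.neighborSet v).ncard := by
    rw [h1, sum_const, card_univ, Fintype.card_fin, smul_eq_mul, mul_comm]
  exact ((sum_eq_sum_iff_of_le (fun v _ => h v)).1 h2 v (mem_univ v)).symm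

/-- **Main theorem.** For `n, m ≥ 3`, a field `F` of characteristic zero and graphs `G` on `[n]` and
`H` on `[m]` without isolated vertices, the pair `(G, H)` has the basis property if and only if both
`G` and `H` are vertex-disjoint unions of cycles of odd length. -/
theorem result (n m : ℕ) (hn : 3 ≤ n) (hm : 3 ≤ m) (F : Type*) [Field F] [CharZero F]
    (G : SimpleGraph (Fin n)) (H : SimpleGraph (Fin m))
    (hG : ∀ v, ∃ w, G.Adj v w) (hH : ∀ v, ∃ w, H.Adj v w) :
    BasisProperty F G H ↔ IsOddCycleUnion G ∧ IsOddCycleUnion H := by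
  have hdim : Module.finrank (RatField n m F) (Fin n × Fin m → RatField n m F) = n * m := by
    rw [Module.finrank_fintype_fun_eq_card, Fintype.card_prod, Fintype.card_fin, Fintype.card_fin]
  have : Nonempty (Fin n) := ⟨⟨0, by omega⟩⟩
  have : Nonempty (Fin m) := ⟨⟨0, by omega⟩⟩
  have hfin : Fintype (EdgeIdx G × EdgeIdx H) := Fintype.ofFinite _
  constructor
  · rintro ⟨hli, hspan⟩
    rw [span_top F hn hm] at hspan
    have hnd := (span_iff_nondeg F G H).1 hspan
    have hcard : Nat.card (EdgeIdx G) * Nat.card (EdgeIdx H) = n * m := by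
      rw [← Nat.card_prod, Nat.card_eq_fintype_card, ← hdim]
      exact (Module.finrank_eq_card_basis (Module.Basis.mk hli hspan.ge)).symm
    have hd1 := fun v => two_le_deg hnd (xx_ne_zero F) hG v
    have hd2 := fun v => two_le_deg hnd.symm (fun k i => xx_ne_zero F i k) hH v
    have hn' : n ≤ Nat.card (EdgeIdx G) := by
      have h1 := two_card_edge G
      have h2 : ∑ v : Fin n, 2 ≤ ∑ v, (G.neighborSet v).ncard := sum_le_sum (fun v _ => hd1 v)
      rw [h1, sum_const, card_univ, Fintype.card_fin, smul_eq_mul] at h2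
      omega
    have hm' : m ≤ Nat.card (EdgeIdx H) := by
      have h1 := two_card_edge H
      have h2 : ∑ v : Fin m, 2 ≤ ∑ v, (H.neighborSet v).ncard := sum_le_sum (fun v _ => hd2 v)
      rw [h1, sum_const, card_univ, Fintype.card_fin, smul_eq_mul] at h2
      omega
    have hn2 : Nat.card (EdgeIdx G) = n := by
      by_contra hne
      have h1 : n + 1 ≤ Nat.card (EdgeIdx G) := by omega
      have h2 : (n + 1) * m ≤ n * m := by
        rw [← hcard]
        exact Nat.mul_le_mul h1 hm'
      nlinarith
    have hm2 : Nat.card (EdgeIdx H) = m := by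
      rw [hn2] at hcard
      exact Nat.eq_of_mul_eq_mul_left (by omega) hcard
    exact ⟨odd_of_nondeg hnd (xx_ne_zero F) (all_two hd1 hn2),
      odd_of_nondeg hnd.symm (fun k i => xx_ne_zero F i k) (all_two hd2 hm2)⟩
  · rintro ⟨h1, h2⟩
    have hnd : Nondeg (xx F) G H := nondeg_of_cycles F (odd_cycles h1) (odd_cycles h2)
    have hspan := (span_iff_nondeg F G H).2 hnd
    refine ⟨?_, by rw [hspan, span_top F hn hm]⟩
    apply linearIndependent_of_top_le_span_of_card_eq_finrank
    · exact hspan.ge
    · rw [hdim, ← Nat.card_eq_fintype_card, Nat.card_prod, card_edge_of_two h1.1,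
        card_edge_of_two h2.1]

end main

end Pool.Agent.Results.MP_305ad1_co.OddCyclePairs
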